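import Pool.Agent.U36.SD.Stm

/-!
Package CNT of project SD: from the proportion of `CO` to the proportion of its conjugates `CS`.
-/

set_option autoImplicit false

open NumberField Polynomial IsDedekindDomain Pool.Agent.W401.Cheb

namespace Pool.Agent.U99.SD

open Pool.Agent.TH954 Pool.Agent.U36.BA Pool.Agent.U36.DN Pool.Agent.U36.SD

variable {K : Type} [Field K] [NumberField K]

lemma conj_pow_apply (τ σ : GK K) (h : ℕ) (x : AlgebraicClosure K) :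
    ((τ⁻¹ * σ * τ) ^ h) x = (τ⁻¹ : GK K) ((σ ^ h) (τ x)) := by
  have : (τ⁻¹ * σ * τ) ^ h = τ⁻¹ * σ ^ h * τ := by
    have := conj_pow (i := h) (a := τ⁻¹) (b := σ)
    rw [inv_inv] at this
    exact this
  rw [this, AlgEquiv.mul_apply, AlgEquiv.mul_apply]

lemma inv_apply_apply (τ : GK K) (x : AlgebraicClosure K) : (τ⁻¹ : GK K) (τ x) = x := by
  rw [← AlgEquiv.mul_apply, inv_mul_cancel, AlgEquiv.one_apply]

lemma apply_inv_apply (τ : GK K) (x : AlgebraicClosure K) : τ ((τ⁻¹ : GK K) x) = x := by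
  rw [← AlgEquiv.mul_apply, mul_inv_cancel, AlgEquiv.one_apply]

/-- a conjugate of an element of `CS` lies in `CO` -/
lemma conj_mem (A : Finset ℕ) (c : ℕ → AlgebraicClosure K) (h : ℕ) (σ τ : GK K)
    (hτ : ∀ ℓ ∈ A, (∀ ζ : AlgebraicClosure K, ζ ^ ℓ = 1 → (σ ^ h) ζ = ζ) →
      ∀ z : AlgebraicClosure K, z ^ ℓ = τ (c ℓ) → (σ ^ h) z = z) :
    τ⁻¹ * σ * τ ∈ CO A c h := by
  intro ℓ hℓ hζ z hz
  rw [conj_pow_apply]
  have h1 : ∀ ζ : AlgebraicClosure K, ζ ^ ℓ = 1 → (σ ^ h) ζ = ζ := by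
    intro ζ h1
    have h2 := hζ ((τ⁻¹ : GK K) ζ) (by rw [← map_pow, h1, map_one])
    rw [conj_pow_apply, apply_inv_apply] at h2
    have h3 := congrArg τ h2
    rwa [apply_inv_apply, apply_inv_apply] at h3
  have h2 := hτ ℓ hℓ h1 (τ z) (by rw [← map_pow, hz])
  rw [h2, inv_apply_apply]

theorem t_CNT (hOP : S_OP) (hC1 : S_C1) : S_CNT := by
  classical
  intro K _ _ N _ _ A hA hA2 hA3 c hc
  have hpos : ∀ ℓ ∈ A, 0 < ℓ := fun ℓ hℓ => (hA ℓ hℓ).pos
  obtain ⟨hnorm, hopen, -⟩ := hOP K N A hpos c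
  have hC := hC1 K N A hA hA2 hA3 c hc
  set h := Module.finrank K N with hh
  haveI := hnorm
  haveI hfin : Finite (GK K ⧸ US N A c) := Subgroup.quotient_finite_of_isOpen _ hopen
  -- the restriction to `N`
  let Φ : GK K → (N →ₐ[K] AlgebraicClosure K) := fun τ => (τ : AlgebraicClosure K →ₐ[K] _).comp N.val
  let g : (N →ₐ[K] AlgebraicClosure K) → GK K := fun e =>
    if he : ∃ τ, Φ τ = e then he.choose else 1
  have hg : ∀ τ, Φ (g (Φ τ)) = Φ τ := by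
    intro τ
    have he : ∃ τ', Φ τ' = Φ τ := ⟨τ, rfl⟩
    have : g (Φ τ) = he.choose := dif_pos he
    rw [this]
    exact he.choose_spec
  let q : GK K → GK K ⧸ US N A c := QuotientGroup.mk
  let S : (N →ₐ[K] AlgebraicClosure K) → Set (GK K ⧸ US N A c) := fun e =>
    {x | (q (g e))⁻¹ * x * q (g e) ∈ q '' CO A c h}
  haveI : Fintype (N →ₐ[K] AlgebraicClosure K) := Fintype.ofFinite _
  have hsub : q '' CS A c h ⊆ ⋃ e ∈ (Finset.univ : Finset (N →ₐ[K] AlgebraicClosure K)), S e := by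
    rintro _ ⟨σ, ⟨τ, hτ⟩, rfl⟩
    simp only [Set.mem_iUnion]
    refine ⟨Φ τ, Finset.mem_univ _, ?_⟩
    refine ⟨(g (Φ τ))⁻¹ * σ * g (Φ τ), ?_, rfl⟩
    apply conj_mem
    intro ℓ hℓ hζ z hz
    refine hτ ℓ hℓ hζ z ?_
    rw [hz]
    have := congrArg (fun e : N →ₐ[K] AlgebraicClosure K => e ⟨c ℓ, (hc ℓ hℓ).1⟩) (hg τ)
    exact this
  have hS : ∀ e, (S e).ncard ≤ (q '' CO A c h).ncard := by
    intro e
    apply Set.ncard_le_ncard_of_injOn (fun x => (q (g e))⁻¹ * x * q (g e))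
    · intro x hx
      exact hx
    · intro x _ y _ hxy
      simpa using hxy
  have hcard : Fintype.card (N →ₐ[K] AlgebraicClosure K) = h := by
    rw [Fintype.card_eq_nat_card]
    exact AlgHom.natCard_of_splits K N _ (fun _ => IsAlgClosed.splits _)
  have h1 : (q '' CS A c h).ncard ≤ h * (q '' CO A c h).ncard := by
    calc (q '' CS A c h).ncard ≤ (⋃ e ∈ (Finset.univ : Finset (N →ₐ[K] AlgebraicClosure K)), S e).ncard :=
          Set.ncard_le_ncard hsub (Set.toFinite _)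
      _ ≤ ∑ e ∈ (Finset.univ : Finset (N →ₐ[K] AlgebraicClosure K)), (S e).ncard :=
          Finset.set_ncard_biUnion_le _ _
      _ ≤ ∑ _e ∈ (Finset.univ : Finset (N →ₐ[K] AlgebraicClosure K)), (q '' CO A c h).ncard :=
          Finset.sum_le_sum fun e _ => hS e
      _ = Fintype.card (N →ₐ[K] AlgebraicClosure K) * (q '' CO A c h).ncard := by
          rw [Finset.sum_const, smul_eq_mul, Finset.card_univ]
      _ = h * (q '' CO A c h).ncard := by
          rw [hcard]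
  have h2 : ((q '' CS A c h).ncard : ℝ) ≤ (h : ℝ) * ((q '' CO A c h).ncard : ℝ) := by
    exact_mod_cast h1
  have h3 : (0 : ℝ) ≤ (Nat.card (GK K ⧸ US N A c) : ℝ) := Nat.cast_nonneg _
  calc ((q '' CS A c h).ncard : ℝ) / (Nat.card (GK K ⧸ US N A c) : ℝ)
      ≤ ((h : ℝ) * ((q '' CO A c h).ncard : ℝ)) / (Nat.card (GK K ⧸ US N A c) : ℝ) :=
        div_le_div_of_nonneg_right h2 h3
    _ = (h : ℝ) * (((q '' CO A c h).ncard : ℝ) / (Nat.card (GK K ⧸ US N A c) : ℝ)) := by ring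
    _ ≤ (h : ℝ) * ((h : ℝ) * (Module.finrank ℚ K : ℝ) * ∏ ℓ ∈ A, (((ℓ : ℝ) - 1) / ℓ)) :=
        mul_le_mul_of_nonneg_left hC (Nat.cast_nonneg _)
    _ = (h : ℝ) ^ 2 * (Module.finrank ℚ K : ℝ) * ∏ ℓ ∈ A, (((ℓ : ℝ) - 1) / ℓ) := by ring

end Pool.Agent.U99.SD
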